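import Pool.Agent.H6.GS2.Targets
import Pool.Agent.H6.GS2.Bas
import Pool.Agent.H20.ENM.QMS

/-!
# Row CHW: the changes of the energy of a window (helper73)
-/

set_option autoImplicit false

open Finset Pool.Agent.H6.N4D Pool.Agent.H93 Pool.Agent.H93.GS Pool.Agent.H6.GS2

namespace Pool.Agent.H73.GSW

lemma chw_ac (q N n : ℕ) (G : ℕ → ℂ) :
    ac q N n G - ac 1 N n G = ac 1 N n (fun m => (EB.D q m : ℂ) * G m) := by
  unfold ac
  have h1 : ∀ F : ℕ → ℂ, ∑ m ∈ (Ioc n (n + N)).filter (fun m => 1 ∣ m), F m =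
      ∑ m ∈ Ioc n (n + N), F m := by
    intro F
    rw [filter_true_of_mem (fun m _ => one_dvd m)]
  rw [h1, h1, sum_filter]
  have h2 : ∑ m ∈ Ioc n (n + N), (EB.D q m : ℂ) * G m =
      (∑ m ∈ Ioc n (n + N), if q ∣ m then G m else 0) * q - ∑ m ∈ Ioc n (n + N), G m := by
    rw [sum_mul, ← sum_sub_distrib]
    apply sum_congr rfl
    intro m _
    unfold EB.D
    split_ifs
    · push_cast; ring
    · push_cast; ring
  rw [h2]
  push_cast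
  ring

lemma chw_re (q N n : ℕ) (G : ℕ → ℂ) :
    |ar q N n (fun m => (G m).re) - ar 1 N n (fun m => (G m).re)| ≤
      ‖ac 1 N n (fun m => (EB.D q m : ℂ) * G m)‖ := by
  rw [← ac_re, ← ac_re, ← Complex.sub_re, chw_ac]
  exact Complex.abs_re_le_norm _

lemma chw_lin (lam : ℕ → ℝ) (q N n : ℕ) (g : Ex) :
    |lin lam q N n g| ≤ 2 * ∑ i ∈ range g.k, ‖g.c i‖ * EB.zz lam q N n (g.a i) (fun _ => 1) := by
  have h1 : lin lam q N n g = 2 * (ar q N n (fun m => ((lam m : ℂ) *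
      (starRingEnd ℂ) (g.f m)).re) - ar 1 N n (fun m => ((lam m : ℂ) *
      (starRingEnd ℂ) (g.f m)).re)) := by
    unfold lin
    simp only [Complex.re_ofReal_mul, Complex.conj_re]
  rw [h1, abs_mul, abs_two]
  apply mul_le_mul_of_nonneg_left _ (by norm_num)
  refine (chw_re q N n _).trans ?_
  have h2 : (fun m : ℕ => (EB.D q m : ℂ) * ((lam m : ℂ) * (starRingEnd ℂ) (g.f m))) =
      fun m => ((EB.D q m : ℂ) * (lam m : ℂ)) * (starRingEnd ℂ) (g.f m) := by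
    funext m; ring
  rw [h2, ac_conj]
  refine (norm_sum_le _ _).trans (sum_le_sum fun i _ => ?_)
  rw [norm_mul, Complex.norm_conj]
  apply mul_le_mul_of_nonneg_left _ (norm_nonneg _)
  unfold ac EB.zz
  rw [filter_true_of_mem (fun m _ => one_dvd m)]
  apply le_of_eq
  have h3 : ∑ m ∈ Ioc n (n + N), (EB.D q m : ℂ) * (lam m : ℂ) * ee (-(g.a i * m)) =
      ∑ m ∈ Ioc n (n + N), (lam m : ℂ) * (EB.D q m : ℂ) * ee (-(g.a i * m)) * 1 := by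
    apply sum_congr rfl
    intro m _
    ring
  rw [h3]
  simp

lemma chw_nrm (q N n : ℕ) (g : Ex) :
    |nrm q N n g| ≤ ‖ac 1 N n (fun x => (EB.D q x : ℂ) * g.f x * (starRingEnd ℂ) (g.f x))‖ := by
  have h1 : nrm q N n g = ar q N n (fun m => (g.f m * (starRingEnd ℂ) (g.f m)).re) -
      ar 1 N n (fun m => (g.f m * (starRingEnd ℂ) (g.f m)).re) := by
    unfold nrm
    have h2 : ∀ m : ℕ, (g.f m * (starRingEnd ℂ) (g.f m)).re = ‖g.f m‖ ^ 2 := by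
      intro m
      rw [Complex.mul_conj, Complex.ofReal_re, Complex.normSq_eq_norm_sq]
    simp only [h2]
  rw [h1]
  refine (chw_re q N n _).trans (le_of_eq ?_)
  congr 2
  funext m
  ring

/-- Cauchy-Schwarz with weights -/
lemma chw_cs (s : Finset ℕ) (z : ℕ → ℝ) (A W : ℝ)
    (hW : ∑ q ∈ s, 1 / (q : ℝ) ≤ W) (hA : ∑ q ∈ s, 1 / (q : ℝ) * z q ^ 2 ≤ A) :
    ∑ q ∈ s, 1 / (q : ℝ) * z q ≤ √W * √A := by
  have h1 := Real.sum_mul_le_sqrt_mul_sqrt s (fun q => √(1 / (q : ℝ)))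
    (fun q => √(1 / (q : ℝ)) * z q)
  have h0 : ∀ q : ℕ, 0 ≤ 1 / (q : ℝ) := fun q => by positivity
  have e1 : ∀ q ∈ s, √(1 / (q : ℝ)) * (√(1 / (q : ℝ)) * z q) = 1 / (q : ℝ) * z q := by
    intro q _
    rw [← mul_assoc, Real.mul_self_sqrt (h0 q)]
  have e2 : ∀ q ∈ s, √(1 / (q : ℝ)) ^ 2 = 1 / (q : ℝ) := fun q _ => Real.sq_sqrt (h0 q)
  have e3 : ∀ q ∈ s, (√(1 / (q : ℝ)) * z q) ^ 2 = 1 / (q : ℝ) * z q ^ 2 := by
    intro q _
    rw [mul_pow, Real.sq_sqrt (h0 q)]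
  rw [sum_congr rfl e1, sum_congr rfl e2, sum_congr rfl e3] at h1
  refine h1.trans ?_
  exact mul_le_mul (Real.sqrt_le_sqrt hW) (Real.sqrt_le_sqrt hA) (Real.sqrt_nonneg _)
    (Real.sqrt_nonneg _)

lemma chw_QQ {m q : ℕ} (h : q ∈ EB.QQ m) :
    q.Prime ∧ q ≤ 2 ^ (m / 200) ∧ 1 / (q : ℝ) ≤ (1 / 2) ^ (m / 400) := by
  unfold EB.QQ at h
  rw [mem_filter, mem_Ioc] at h
  refine ⟨h.2, h.1.2, ?_⟩
  have h1 : ((2 : ℝ) ^ (m / 400)) ≤ q := by exact_mod_cast h.1.1.le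
  rw [one_div_pow]
  exact one_div_le_one_div_of_le (by positivity) h1

/-- two primes are not exceptional for the same difference -/
lemma chw_two {m q q' : ℕ} (hm : 400 ≤ m) (hq : q ∈ EB.QQ m) (hq' : q' ∈ EB.QQ m) (hne : q ≠ q')
    (t : ℝ) (b b' : ℤ) (hb : ¬ ((q : ℤ) ∣ b))
    (h : nd (t - (b : ℝ) / q) ≤ ((2 ^ m : ℕ) : ℝ) ^ (-(1 / 2) : ℝ))
    (h' : nd (t - (b' : ℝ) / q') ≤ ((2 ^ m : ℕ) : ℝ) ^ (-(1 / 2) : ℝ)) : False := by
  obtain ⟨p1, p2, -⟩ := chw_QQ hq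
  obtain ⟨p1', p2', -⟩ := chw_QQ hq'
  have hq0 : (0 : ℝ) < q := by exact_mod_cast p1.pos
  have hq0' : (0 : ℝ) < q' := by exact_mod_cast p1'.pos
  set A : ℝ := (2 : ℝ) ^ (m / 200) with hA
  have hA0 : 0 < A := by positivity
  have hqA : (q : ℝ) ≤ A := by rw [hA]; exact_mod_cast p2
  have hqA' : (q' : ℝ) ≤ A := by rw [hA]; exact_mod_cast p2'
  have hε : ((2 ^ m : ℕ) : ℝ) ^ (-(1 / 2) : ℝ) ≤ 1 / (4 * A ^ 2) := by
    rw [Real.rpow_neg (by positivity), ← Real.sqrt_eq_rpow, ← one_div]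
    apply one_div_le_one_div_of_le (by positivity)
    apply Real.le_sqrt_of_sq_le
    rw [hA]
    have e1 : (4 * ((2 : ℝ) ^ (m / 200)) ^ 2) ^ 2 = 2 ^ (4 + m / 200 * 4) := by
      rw [pow_add, pow_mul]
      ring
    rw [e1]
    push_cast
    apply pow_le_pow_right₀ (by norm_num)
    omega
  have h2 : nd ((b : ℝ) / q - (b' : ℝ) / q') ≤ 1 / (2 * A ^ 2) := by
    have h3 := nd_tri ((b : ℝ) / q) t ((b' : ℝ) / q')
    rw [nd_sub_comm ((b : ℝ) / q) t] at h3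
    have h4 : 1 / (4 * A ^ 2) + 1 / (4 * A ^ 2) = 1 / (2 * A ^ 2) := by
      field_simp
      norm_num
    linarith
  set x : ℝ := (b : ℝ) / q - (b' : ℝ) / q' with hx
  set k : ℤ := b * q' - b' * q - round x * (q * q') with hk
  have h5 : x - round x = (k : ℝ) / (q * q') := by
    rw [hk, hx]
    push_cast
    field_simp
  have hk0 : k ≠ 0 := by
    intro h0
    have h6 : b * q' = q * (b' + round x * q') := by
      have : b * q' - b' * q - round x * (q * q') = 0 := h0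
      linarith
    have h7 : (q : ℤ) ∣ b * q' := ⟨_, h6⟩
    have h8 : IsCoprime (q : ℤ) (q' : ℤ) := by
      rw [Nat.isCoprime_iff_coprime]
      exact (Nat.coprime_primes p1 p1').mpr hne
    exact hb (h8.dvd_of_dvd_mul_right h7)
  have h9 : (1 : ℝ) ≤ |(k : ℝ)| := by
    have := Int.one_le_abs hk0
    exact_mod_cast this
  have h10 : 1 / (A * A) ≤ nd x := by
    unfold nd
    rw [h5, abs_div, abs_of_pos (mul_pos hq0 hq0')]
    calc 1 / (A * A) ≤ 1 / (q * q') := by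
          apply one_div_le_one_div_of_le (mul_pos hq0 hq0')
          exact mul_le_mul hqA hqA' hq0'.le hA0.le
      _ ≤ _ := by gcongr
  have h11 := h10.trans h2
  rw [div_le_div_iff₀ (by positivity) (by positivity)] at h11
  nlinarith [mul_pos hA0 hA0]

lemma chw_ind_nonneg (p : Prop) : 0 ≤ EB.ind p := by
  unfold EB.ind
  split_ifs <;> norm_num

lemma chw_one {m : ℕ} (hm : 400 ≤ m) (t : ℝ) :
    ∑ q ∈ EB.QQ m, 1 / (q : ℝ) * EB.ind (∃ b : ℤ, ¬ ((q : ℤ) ∣ b) ∧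
      nd (t - (b : ℝ) / q) ≤ ((2 ^ m : ℕ) : ℝ) ^ (-(1 / 2) : ℝ)) ≤ (1 / 2) ^ (m / 400) := by
  by_cases hex : ∃ q ∈ EB.QQ m, ∃ b : ℤ, ¬ ((q : ℤ) ∣ b) ∧
      nd (t - (b : ℝ) / q) ≤ ((2 ^ m : ℕ) : ℝ) ^ (-(1 / 2) : ℝ)
  · obtain ⟨q₀, hq₀, b₀, hb₀, hn₀⟩ := hex
    rw [sum_eq_single_of_mem q₀ hq₀]
    · have h1 : EB.ind (∃ b : ℤ, ¬ ((q₀ : ℤ) ∣ b) ∧
          nd (t - (b : ℝ) / q₀) ≤ ((2 ^ m : ℕ) : ℝ) ^ (-(1 / 2) : ℝ)) = 1 := by
        unfold EB.ind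
        rw [if_pos ⟨b₀, hb₀, hn₀⟩]
      rw [h1, mul_one]
      exact (chw_QQ hq₀).2.2
    · intro q hq hne
      have h1 : EB.ind (∃ b : ℤ, ¬ ((q : ℤ) ∣ b) ∧
          nd (t - (b : ℝ) / q) ≤ ((2 ^ m : ℕ) : ℝ) ^ (-(1 / 2) : ℝ)) = 0 := by
        unfold EB.ind
        rw [if_neg]
        rintro ⟨b, hb, hn⟩
        exact chw_two hm hq hq₀ hne t b b₀ hb hn hn₀
      rw [h1, mul_zero]
  · have h0 : ∑ q ∈ EB.QQ m, 1 / (q : ℝ) * EB.ind (∃ b : ℤ, ¬ ((q : ℤ) ∣ b) ∧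
        nd (t - (b : ℝ) / q) ≤ ((2 ^ m : ℕ) : ℝ) ^ (-(1 / 2) : ℝ)) = 0 := by
      apply sum_eq_zero
      intro q hq
      unfold EB.ind
      rw [if_neg, mul_zero]
      intro h
      exact hex ⟨q, hq, h⟩
    rw [h0]
    positivity

lemma chw_exc {m : ℕ} (hm : 400 ≤ m) (r : ℕ) (γ : ℕ → ℝ) :
    ∑ q ∈ EB.QQ m, 1 / (q : ℝ) * EB.ind (Exc q (2 ^ m) r γ) ≤ (r : ℝ) ^ 2 * (1 / 2) ^ (m / 400) := by
  have h1 : ∀ q ∈ EB.QQ m, 1 / (q : ℝ) * EB.ind (Exc q (2 ^ m) r γ) ≤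
      ∑ i ∈ range r, ∑ i' ∈ range r, 1 / (q : ℝ) * EB.ind (∃ b : ℤ, ¬ ((q : ℤ) ∣ b) ∧
        nd (γ i - γ i' - (b : ℝ) / q) ≤ ((2 ^ m : ℕ) : ℝ) ^ (-(1 / 2) : ℝ)) := by
    intro q hq
    have h0 : ∀ i i' : ℕ, 0 ≤ 1 / (q : ℝ) * EB.ind (∃ b : ℤ, ¬ ((q : ℤ) ∣ b) ∧
        nd (γ i - γ i' - (b : ℝ) / q) ≤ ((2 ^ m : ℕ) : ℝ) ^ (-(1 / 2) : ℝ)) := fun i i' =>
      mul_nonneg (by positivity) (chw_ind_nonneg _)
    by_cases hE : Exc q (2 ^ m) r γ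
    · obtain ⟨i, hi, i', hi', b, hb, hn⟩ := id hE
      have e1 : EB.ind (Exc q (2 ^ m) r γ) = EB.ind (∃ b : ℤ, ¬ ((q : ℤ) ∣ b) ∧
          nd (γ i - γ i' - (b : ℝ) / q) ≤ ((2 ^ m : ℕ) : ℝ) ^ (-(1 / 2) : ℝ)) := by
        unfold EB.ind
        rw [if_pos hE, if_pos ⟨b, hb, hn⟩]
      rw [e1]
      refine le_trans ?_ (single_le_sum (f := fun i => ∑ i' ∈ range r, 1 / (q : ℝ) *
        EB.ind (∃ b : ℤ, ¬ ((q : ℤ) ∣ b) ∧
        nd (γ i - γ i' - (b : ℝ) / q) ≤ ((2 ^ m : ℕ) : ℝ) ^ (-(1 / 2) : ℝ)))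
        (fun i _ => sum_nonneg fun i' _ => h0 i i') (mem_range.mpr hi))
      exact single_le_sum (f := fun i' => 1 / (q : ℝ) *
        EB.ind (∃ b : ℤ, ¬ ((q : ℤ) ∣ b) ∧
        nd (γ i - γ i' - (b : ℝ) / q) ≤ ((2 ^ m : ℕ) : ℝ) ^ (-(1 / 2) : ℝ)))
        (fun i' _ => h0 i i') (mem_range.mpr hi')
    · have e1 : EB.ind (Exc q (2 ^ m) r γ) = 0 := by
        unfold EB.ind
        rw [if_neg hE]
      rw [e1, mul_zero]
      exact sum_nonneg fun i _ => sum_nonneg fun i' _ => h0 i i'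
  refine (sum_le_sum h1).trans ?_
  rw [sum_comm]
  have h2 : ∀ i ∈ range r, ∑ q ∈ EB.QQ m, ∑ i' ∈ range r, 1 / (q : ℝ) *
      EB.ind (∃ b : ℤ, ¬ ((q : ℤ) ∣ b) ∧
      nd (γ i - γ i' - (b : ℝ) / q) ≤ ((2 ^ m : ℕ) : ℝ) ^ (-(1 / 2) : ℝ)) ≤
      r * (1 / 2) ^ (m / 400) := by
    intro i _
    rw [sum_comm]
    refine (sum_le_sum fun i' _ => chw_one hm (γ i - γ i')).trans (le_of_eq ?_)
    rw [sum_const, card_range, nsmul_eq_mul]
  refine (sum_le_sum h2).trans (le_of_eq ?_)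
  rw [sum_const, card_range, nsmul_eq_mul]
  ring

theorem pf_CHW (hA : Pool.Agent.H93.GS.T_CLA) (hO : T_OPD) (hB : T_BNM) (hD : T_DQG)
    (hZ : T_SAZ) (_hK : T_KER) : T_CHW := by
  intro th hth0 hth1
  obtain ⟨κ, c₁, δ, C', p₀, r₀, N₀, hκ, hc₁, hδ, hC', hcla⟩ := hA th hth0 hth1
  obtain ⟨m₂, hdqg⟩ := hD
  obtain ⟨m₃, hqms⟩ := Pool.Agent.H20.ENM.pf_QMS
  set C : ℝ := 4 / th + C' * (r₀ + 1) + 1 / th ^ 2 + C' * ((r₀ : ℝ) ^ 2 + 3) with hC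
  have hC0 : 0 < C := by positivity
  refine ⟨κ, c₁, δ, C, p₀, max (max N₀ (4 * p₀)) (max (max m₂ m₃) 400), hκ, hc₁, hδ, hC0,
    (le_max_right _ _).trans (le_max_left _ _), ?_⟩
  intro m n lam hm hlam
  have hmN : N₀ ≤ m := ((le_max_left _ _).trans (le_max_left _ _)).trans hm
  have hm2 : m₂ ≤ m := ((le_max_left _ _).trans ((le_max_left _ _).trans (le_max_right _ _))).trans hm
  have hm3 : m₃ ≤ m := ((le_max_right _ _).trans ((le_max_left _ _).trans (le_max_right _ _))).trans hm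
  have hm4 : 400 ≤ m := ((le_max_right _ _).trans (le_max_right _ _)).trans hm
  have hQ3 : ∑ q ∈ EB.QQ m, 1 / (q : ℝ) ≤ 3 := (hqms m hm3).2
  have hN1 : 1 ≤ 2 ^ m := Nat.one_le_two_pow
  obtain ⟨g, hg, -⟩ := hO th lam 1 (2 ^ m) n hth0 hlam (le_refl _) hN1
  obtain ⟨hnm, -, -, -, -⟩ := hB th lam 1 (2 ^ m) n g hth0 hlam (le_refl _) hN1 hg
  have hnm1 : g.nm ≤ 1 / th := by
    rw [le_div_iff₀ hth0]
    have h1 : ((1 : ℕ) : ℝ) / ((2 ^ m : ℕ) : ℝ) ≤ 1 := by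
      rw [div_le_one (by positivity)]
      exact_mod_cast hN1
    linarith
  have hnm0 := nm_nonneg g
  obtain ⟨γ, hγ⟩ := hcla lam m n g hmN hlam hg
  -- the bad part
  set B : ℕ → ℝ := fun q => ∑ i ∈ range r₀, zA lam q (2 ^ m) n (γ i) ^ 2 +
    bad th κ c₁ δ p₀ lam q m n + EB.ind (Exc q (2 ^ m) r₀ γ) + (1 / 2) ^ (m / 4) with hBdef
  have hbad0 : ∀ q, 0 ≤ bad th κ c₁ δ p₀ lam q m n := by
    intro q
    unfold bad
    have h1 := chw_ind_nonneg (κ < gap th lam (2 ^ p₀) (2 ^ (m - p₀)) n)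
    have h2 := chw_ind_nonneg (κ < gapq th lam q (2 ^ p₀) (2 ^ (m - p₀)) n)
    have h3 := chw_ind_nonneg (JF lam q (2 ^ m) n (th / 2) δ c₁)
    linarith
  have hB0 : ∀ q, 0 ≤ B q := by
    intro q
    simp only [hBdef]
    have h1 : 0 ≤ ∑ i ∈ range r₀, zA lam q (2 ^ m) n (γ i) ^ 2 := sum_nonneg fun i _ => sq_nonneg _
    have h2 := chw_ind_nonneg (Exc q (2 ^ m) r₀ γ)
    have h3 := hbad0 q
    positivity
  -- pointwise
  have hpt : ∀ q ∈ EB.QQ m, |En th lam q (2 ^ m) n - En th lam 1 (2 ^ m) n| ≤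
      |lin lam q (2 ^ m) n g| + |nrm q (2 ^ m) n g| + C' * B q := by
    intro q hq
    obtain ⟨hqp, hq2, -⟩ := chw_QQ hq
    have hq100 : q ^ 100 ≤ 2 ^ m := by
      calc q ^ 100 ≤ (2 ^ (m / 200)) ^ 100 := Nat.pow_le_pow_left hq2 100
        _ = 2 ^ (m / 200 * 100) := by rw [← pow_mul]
        _ ≤ 2 ^ m := Nat.pow_le_pow_right (by norm_num) (by omega)
    have hup := hγ q hqp hq100
    have hup' : En th lam q (2 ^ m) n ≤ En th lam 1 (2 ^ m) n + lin lam q (2 ^ m) n g +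
        C' * B q := by
      refine hup.trans (le_of_eq ?_)
      simp only [hBdef]
      unfold bad
      ring
    have hlo : En th lam 1 (2 ^ m) n + lin lam q (2 ^ m) n g - nrm q (2 ^ m) n g ≤
        En th lam q (2 ^ m) n := by
      refine le_trans (le_of_eq ?_) (J_le_En th lam q (2 ^ m) n hth0.le hlam hqp.one_le hN1 g)
      rw [← hg.mx]
      unfold J lin nrm
      have e1 : ∀ Q : ℕ, ar Q (2 ^ m) n (fun m => 2 * lam m * (g.f m).re - ‖g.f m‖ ^ 2) =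
          2 * ar Q (2 ^ m) n (fun m => lam m * (g.f m).re) -
            ar Q (2 ^ m) n (fun m => ‖g.f m‖ ^ 2) := by
        intro Q
        rw [← ar_mul, ← ar_sub]
        exact ar_congr _ _ _ fun m _ _ => by ring
      rw [e1, e1]
      ring
    have h1 := mul_nonneg hC'.le (hB0 q)
    rw [abs_le]
    constructor
    · linarith [neg_abs_le (lin lam q (2 ^ m) n g), le_abs_self (nrm q (2 ^ m) n g),
        abs_nonneg (lin lam q (2 ^ m) n g), abs_nonneg (nrm q (2 ^ m) n g)]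
    · linarith [le_abs_self (lin lam q (2 ^ m) n g), abs_nonneg (nrm q (2 ^ m) n g)]
  have hw0 : ∀ q : ℕ, 0 ≤ 1 / (q : ℝ) := fun q => by positivity
  have hsum : ∑ q ∈ EB.QQ m, 1 / (q : ℝ) * |En th lam q (2 ^ m) n - En th lam 1 (2 ^ m) n| ≤
      ∑ q ∈ EB.QQ m, 1 / (q : ℝ) * |lin lam q (2 ^ m) n g| +
      ∑ q ∈ EB.QQ m, 1 / (q : ℝ) * |nrm q (2 ^ m) n g| +
      C' * ∑ q ∈ EB.QQ m, 1 / (q : ℝ) * B q := by
    rw [mul_sum, ← sum_add_distrib, ← sum_add_distrib]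
    apply sum_le_sum
    intro q hq
    have h1 := mul_le_mul_of_nonneg_left (hpt q hq) (hw0 q)
    refine h1.trans (le_of_eq ?_)
    ring
  refine hsum.trans ?_
  -- (a) the linear terms
  have hSA0 : 0 ≤ SA lam m n := (hZ lam m n 0 hm4 hlam).1
  have ha : ∑ q ∈ EB.QQ m, 1 / (q : ℝ) * |lin lam q (2 ^ m) n g| ≤ 4 / th * √(SA lam m n) := by
    have h1 : ∀ q ∈ EB.QQ m, 1 / (q : ℝ) * |lin lam q (2 ^ m) n g| ≤
        ∑ i ∈ range g.k, 2 * ‖g.c i‖ * (1 / (q : ℝ) *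
          EB.zz lam q (2 ^ m) n (g.a i) (fun _ => 1)) := by
      intro q _
      refine (mul_le_mul_of_nonneg_left (chw_lin lam q (2 ^ m) n g) (hw0 q)).trans (le_of_eq ?_)
      rw [mul_sum, mul_sum]
      exact sum_congr rfl fun i _ => by ring
    refine (sum_le_sum h1).trans ?_
    rw [sum_comm]
    have h2 : ∀ i ∈ range g.k, ∑ q ∈ EB.QQ m, 2 * ‖g.c i‖ * (1 / (q : ℝ) *
        EB.zz lam q (2 ^ m) n (g.a i) (fun _ => 1)) ≤ ‖g.c i‖ * (4 * √(SA lam m n)) := by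
      intro i _
      rw [← mul_sum]
      have h3 := chw_cs (EB.QQ m) (fun q => EB.zz lam q (2 ^ m) n (g.a i) (fun _ => 1))
        (SA lam m n) 4 (by linarith)
        ((hZ lam m n (g.a i) hm4 hlam).2.2 (fun _ _ => 1) (fun q _ => by
          constructor
          · intro m _; simp
          · simp))
      have h4 : √(4 : ℝ) = 2 := by
        rw [show (4 : ℝ) = 2 ^ 2 by norm_num]
        exact Real.sqrt_sq (by norm_num)
      rw [h4] at h3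
      calc 2 * ‖g.c i‖ * ∑ q ∈ EB.QQ m, 1 / (q : ℝ) *
            EB.zz lam q (2 ^ m) n (g.a i) (fun _ => 1)
          ≤ 2 * ‖g.c i‖ * (2 * √(SA lam m n)) :=
            mul_le_mul_of_nonneg_left h3 (by positivity)
        _ = _ := by ring
    refine (sum_le_sum h2).trans ?_
    rw [← sum_mul]
    have h5 : (∑ i ∈ range g.k, ‖g.c i‖) * (4 * √(SA lam m n)) ≤ 1 / th * (4 * √(SA lam m n)) :=
      mul_le_mul_of_nonneg_right hnm1 (by positivity)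
    refine h5.trans (le_of_eq ?_)
    ring
  -- (b) the mean squares
  have hb : ∑ q ∈ EB.QQ m, 1 / (q : ℝ) * |nrm q (2 ^ m) n g| ≤
      1 / th ^ 2 * (1 / 2) ^ (m / 1000) := by
    have h1 := hdqg m n g g hm2
    have h2 : ∑ q ∈ EB.QQ m, 1 / (q : ℝ) * |nrm q (2 ^ m) n g| ≤ ∑ q ∈ EB.QQ m, 1 / (q : ℝ) *
        ‖ac 1 (2 ^ m) n (fun x => (EB.D q x : ℂ) * g.f x * (starRingEnd ℂ) (g.f x))‖ :=
      sum_le_sum fun q _ => mul_le_mul_of_nonneg_left (chw_nrm q (2 ^ m) n g) (hw0 q)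
    have h3 : g.nm * g.nm * (1 / 2 : ℝ) ^ (m / 1000) ≤ 1 / th ^ 2 * (1 / 2) ^ (m / 1000) := by
      apply mul_le_mul_of_nonneg_right _ (by positivity)
      calc g.nm * g.nm ≤ (1 / th) * (1 / th) := mul_le_mul hnm1 hnm1 hnm0 (by positivity)
        _ = _ := by field_simp
    linarith
  -- (c) the bad part
  have hp400 : ((1 : ℝ) / 2) ^ (m / 400) ≤ (1 / 2) ^ (m / 1000) :=
    pow_le_pow_of_le_one (by norm_num) (by norm_num) (by omega)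
  have hp4 : ((1 : ℝ) / 2) ^ (m / 4) ≤ (1 / 2) ^ (m / 1000) :=
    pow_le_pow_of_le_one (by norm_num) (by norm_num) (by omega)
  have hc : ∑ q ∈ EB.QQ m, 1 / (q : ℝ) * B q ≤ r₀ * SA lam m n +
      ∑ q ∈ EB.QQ m, 1 / (q : ℝ) * bad th κ c₁ δ p₀ lam q m n +
      ((r₀ : ℝ) ^ 2 + 3) * (1 / 2) ^ (m / 1000) := by
    have h1 : ∑ q ∈ EB.QQ m, 1 / (q : ℝ) * B q =
        ∑ q ∈ EB.QQ m, 1 / (q : ℝ) * ∑ i ∈ range r₀, zA lam q (2 ^ m) n (γ i) ^ 2 +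
        ∑ q ∈ EB.QQ m, 1 / (q : ℝ) * bad th κ c₁ δ p₀ lam q m n +
        ∑ q ∈ EB.QQ m, 1 / (q : ℝ) * EB.ind (Exc q (2 ^ m) r₀ γ) +
        (∑ q ∈ EB.QQ m, 1 / (q : ℝ)) * (1 / 2) ^ (m / 4) := by
      rw [sum_mul, ← sum_add_distrib, ← sum_add_distrib, ← sum_add_distrib]
      exact sum_congr rfl fun q _ => by simp only [hBdef]; ring
    have h2 : ∑ q ∈ EB.QQ m, 1 / (q : ℝ) * ∑ i ∈ range r₀, zA lam q (2 ^ m) n (γ i) ^ 2 ≤
        r₀ * SA lam m n := by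
      have h3 : ∑ q ∈ EB.QQ m, 1 / (q : ℝ) * ∑ i ∈ range r₀, zA lam q (2 ^ m) n (γ i) ^ 2 =
          ∑ i ∈ range r₀, ∑ q ∈ EB.QQ m, 1 / (q : ℝ) * zA lam q (2 ^ m) n (γ i) ^ 2 := by
        rw [sum_comm]
        exact sum_congr rfl fun q _ => by rw [mul_sum]
      rw [h3]
      refine (sum_le_sum fun i _ => (hZ lam m n (γ i) hm4 hlam).2.1).trans (le_of_eq ?_)
      rw [sum_const, card_range, nsmul_eq_mul]
    have h4 := chw_exc hm4 r₀ γ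
    have h5 : (r₀ : ℝ) ^ 2 * (1 / 2) ^ (m / 400) ≤ (r₀ : ℝ) ^ 2 * (1 / 2) ^ (m / 1000) :=
      mul_le_mul_of_nonneg_left hp400 (by positivity)
    have h6 : (∑ q ∈ EB.QQ m, 1 / (q : ℝ)) * (1 / 2 : ℝ) ^ (m / 4) ≤
        3 * (1 / 2) ^ (m / 1000) :=
      mul_le_mul hQ3 hp4 (by positivity) (by norm_num)
    rw [h1]
    linarith
  have hbs0 : 0 ≤ ∑ q ∈ EB.QQ m, 1 / (q : ℝ) * bad th κ c₁ δ p₀ lam q m n :=
    sum_nonneg fun q _ => mul_nonneg (hw0 q) (hbad0 q)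
  set Bs : ℝ := ∑ q ∈ EB.QQ m, 1 / (q : ℝ) * bad th κ c₁ δ p₀ lam q m n with hBs
  set e : ℝ := (1 / 2 : ℝ) ^ (m / 1000) with he
  have he0 : 0 ≤ e := by positivity
  set s : ℝ := √(SA lam m n) with hs
  have hs0 : 0 ≤ s := Real.sqrt_nonneg _
  have k1 := mul_le_mul_of_nonneg_left hc hC'.le
  have k2 : 4 / th * s + 1 / th ^ 2 * e + C' * (r₀ * SA lam m n + Bs +
      ((r₀ : ℝ) ^ 2 + 3) * e) ≤ C * (s + SA lam m n + Bs + e) := by
    have f1 : 4 / th * s ≤ C * s := by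
      apply mul_le_mul_of_nonneg_right _ hs0
      rw [hC]
      have : 0 ≤ C' * (r₀ + 1) + 1 / th ^ 2 + C' * ((r₀ : ℝ) ^ 2 + 3) := by positivity
      linarith
    have f2 : C' * (r₀ * SA lam m n) ≤ C * SA lam m n := by
      rw [← mul_assoc]
      apply mul_le_mul_of_nonneg_right _ hSA0
      rw [hC]
      have : 0 ≤ 4 / th + C' + 1 / th ^ 2 + C' * ((r₀ : ℝ) ^ 2 + 3) := by positivity
      linarith
    have f3 : C' * Bs ≤ C * Bs := by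
      apply mul_le_mul_of_nonneg_right _ hbs0
      rw [hC]
      have : 0 ≤ 4 / th + C' * r₀ + 1 / th ^ 2 + C' * ((r₀ : ℝ) ^ 2 + 3) := by positivity
      linarith
    have f4 : (1 / th ^ 2 + C' * ((r₀ : ℝ) ^ 2 + 3)) * e ≤ C * e := by
      apply mul_le_mul_of_nonneg_right _ he0
      rw [hC]
      have : 0 ≤ 4 / th + C' * (r₀ + 1) := by positivity
      linarith
    calc 4 / th * s + 1 / th ^ 2 * e + C' * (r₀ * SA lam m n + Bs + ((r₀ : ℝ) ^ 2 + 3) * e)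
        = 4 / th * s + C' * (r₀ * SA lam m n) + C' * Bs +
          (1 / th ^ 2 + C' * ((r₀ : ℝ) ^ 2 + 3)) * e := by ring
      _ ≤ C * s + C * SA lam m n + C * Bs + C * e := by linarith
      _ = _ := by ring
  linarith

end Pool.Agent.H73.GSW
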